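import Mathlib
import Pool.Agent.Lib.JR28.Main

set_option autoImplicit false

namespace Pool.Agent.Results.MP_be0b77_nt.Classification

/-- The sets `A_K` of totally real fields `K` are exactly the empty set and the half-lines
`(t, ∞)` and `[t, ∞)` with `t ≥ 4`; each is realised by a field that is Galois over `ℚ`. -/
theorem result (A : Set ℝ) : List.TFAE
    [∃ K : Subfield ℂ, (∀ x ∈ K, IsAlgebraic ℚ x ∧ ∀ z : ℂ, IsConjRoot ℚ x z → z.im = 0) ∧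
      {s : ℝ | 0 < s ∧ {α : ℂ | α ∈ K ∧ IsIntegral ℤ α ∧
        ∀ z : ℂ, IsConjRoot ℚ α z → z.im = 0 ∧ z.re ∈ Set.Icc 0 s}.Infinite} = A,
    ∃ K : Subfield ℂ, (∀ x ∈ K, IsAlgebraic ℚ x ∧ ∀ z : ℂ, IsConjRoot ℚ x z → z ∈ K ∧ z.im = 0) ∧
      {s : ℝ | 0 < s ∧ {α : ℂ | α ∈ K ∧ IsIntegral ℤ α ∧
        ∀ z : ℂ, IsConjRoot ℚ α z → z.im = 0 ∧ z.re ∈ Set.Icc 0 s}.Infinite} = A,
    A = ∅ ∨ ∃ t : ℝ, 4 ≤ t ∧ (A = Set.Ioi t ∨ A = Set.Ici t)] := by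
  tfae_have 1 → 3 := fun ⟨K, _, h⟩ => Pool.Agent.Lib.JR28.shape K A h
  tfae_have 3 → 2 := Pool.Agent.Lib.JR28.realise A
  tfae_have 2 → 1 := fun ⟨K, h1, h2⟩ => ⟨K, fun x hx => ⟨(h1 x hx).1, fun z hz => ((h1 x hx).2 z hz).2⟩, h2⟩
  tfae_finish

end Pool.Agent.Results.MP_be0b77_nt.Classification
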